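import Pool.Agent.W707.HM.Stm

/-! Project HM, part QPO. -/

set_option autoImplicit false

namespace Pool.Agent.W91.HM.QPO

open MeasureTheory Set Filter Topology
open Pool.Agent.W707.HM

/-- second order expansion of `(1 + ε) ^ p` -/
lemma lim_pow (p : ℝ) : Tendsto (fun ε : ℝ => ((1 + ε) ^ p - 1 - p * ε) / ε ^ 2) (𝓝[>] 0)
    (𝓝 (p * (p - 1) / 2)) := by
  have hd : ∀ ε : ℝ, 0 < ε → ∀ q : ℝ,
      HasDerivAt (fun ε : ℝ => (1 + ε) ^ q) (q * (1 + ε) ^ (q - 1)) ε := by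
    intro ε hε q
    have h1 : HasDerivAt (fun ε : ℝ => 1 + ε) 1 ε := (hasDerivAt_id ε).const_add 1
    have h2 := h1.rpow_const (p := q) (Or.inl (by linarith : (1 : ℝ) + ε ≠ 0))
    simpa using h2
  have hc : Tendsto (fun ε : ℝ => (1 + ε) ^ p - 1 - p * ε) (𝓝[>] 0) (𝓝 0) := by
    have h1 : ContinuousAt (fun ε : ℝ => (1 + ε) ^ p - 1 - p * ε) 0 := by
      apply ContinuousAt.sub
      · apply ContinuousAt.sub
        · apply ContinuousAt.rpow_const
          · fun_prop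
          · left; norm_num
        · exact continuousAt_const
      · fun_prop
    have h2 := h1.tendsto
    simp only [add_zero, Real.one_rpow, sub_self, mul_zero] at h2
    exact h2.mono_left nhdsWithin_le_nhds
  have hc2 : Tendsto (fun ε : ℝ => ε ^ 2) (𝓝[>] 0) (𝓝 0) := by
    have h1 : ContinuousAt (fun ε : ℝ => ε ^ 2) 0 := by fun_prop
    have h2 := h1.tendsto
    simp only [ne_eq, OfNat.ofNat_ne_zero, not_false_eq_true, zero_pow] at h2
    exact h2.mono_left nhdsWithin_le_nhds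
  refine HasDerivAt.lhopital_zero_nhdsGT (f' := fun ε => p * (1 + ε) ^ (p - 1) - p)
    (g' := fun ε => 2 * ε) ?_ ?_ ?_ hc hc2 ?_
  · filter_upwards [self_mem_nhdsWithin] with ε hε
    have h1 : HasDerivAt (fun ε : ℝ => (1 + ε) ^ p - 1 - p * ε) (p * (1 + ε) ^ (p - 1) - p * 1) ε :=
      ((hd ε hε p).sub_const 1).sub ((hasDerivAt_id ε).const_mul p)
    rwa [mul_one] at h1
  · filter_upwards [self_mem_nhdsWithin] with ε hε
    have h1 := hasDerivAt_pow 2 ε
    simpa using h1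
  · filter_upwards [self_mem_nhdsWithin] with ε hε
    have : (0 : ℝ) < ε := hε
    positivity
  · have h1 : HasDerivAt (fun ε : ℝ => (1 + ε) ^ (p - 1)) (p - 1) 0 := by
      have h1 : HasDerivAt (fun ε : ℝ => 1 + ε) 1 0 := (hasDerivAt_id (0 : ℝ)).const_add 1
      have h2 := h1.rpow_const (p := p - 1) (Or.inl (by norm_num : (1 : ℝ) + 0 ≠ 0))
      simpa using h2
    have h2 := h1.tendsto_slope_zero_right
    have h3 := h2.const_mul (p / 2)
    have h4 : p / 2 * (p - 1) = p * (p - 1) / 2 := by ring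
    rw [h4] at h3
    refine h3.congr' ?_
    filter_upwards [self_mem_nhdsWithin] with ε hε
    have hε' : (0 : ℝ) < ε := hε
    simp only [zero_add, add_zero, Real.one_rpow, smul_eq_mul]
    field_simp

theorem main : S_QPO := by
  intro p f hp hHI m t hSG ht0 ht1
  have h1t : 0 < 1 - t := by linarith
  set n1 : ℝ := (p * f t - (1 + t) * m) / (1 - t) with hn1
  have key : ∀ᶠ ε : ℝ in 𝓝[>] 0, -(n1 * t) ≤ ((1 + ε) ^ p - 1 - p * ε) / ε ^ 2 * f t := by
    have hmem : Ioo (0 : ℝ) (1 - t) ∈ 𝓝[>] (0 : ℝ) := Ioo_mem_nhdsGT h1t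
    filter_upwards [hmem] with ε hε
    obtain ⟨hε0, hε1⟩ := hε
    have hs : (0 : ℝ) < 1 + ε := by linarith
    have h2 := hHI t m ht1 hSG (1 + ε) (t * (1 + ε)) hs
      (by rw [abs_of_nonneg (by positivity)]; nlinarith)
      (by nlinarith [mul_nonneg ht0 (sq_nonneg ε)]) (by linarith) (by nlinarith)
    rw [mul_div_cancel_right₀ _ hs.ne'] at h2
    have h3 : -(n1 * t) * ε ^ 2 ≤ ((1 + ε) ^ p - 1 - p * ε) * f t := by
      rw [← hn1] at h2
      nlinarith
    have hε2 : 0 < ε ^ 2 := by positivity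
    calc -(n1 * t) = (-(n1 * t) * ε ^ 2) / ε ^ 2 := by field_simp
      _ ≤ (((1 + ε) ^ p - 1 - p * ε) * f t) / ε ^ 2 := div_le_div_of_nonneg_right h3 hε2.le
      _ = ((1 + ε) ^ p - 1 - p * ε) / ε ^ 2 * f t := by ring
  have h4 : -(n1 * t) ≤ p * (p - 1) / 2 * f t :=
    ge_of_tendsto ((lim_pow p).mul_const (f t)) key
  have h5 : Qt p f t m = 2 * (p * (p - 1) / 2 * f t + n1 * t) := by
    unfold Qt Dt
    rw [hn1]
    field_simp
    ring
  rw [h5]
  linarith

end Pool.Agent.W91.HM.QPO
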